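import Pool.Agent.W599.DSN.Stm

set_option autoImplicit false

namespace Pool.Agent.W599.DSN

open MvPolynomial

/-- the quadratic form `qf` as a polynomial -/
noncomputable def pq {n : ℕ} (p z q : Fin n) : MvPolynomial (Fin (n + n)) ℝ :=
  (X (Fin.castAdd n z) - X (Fin.castAdd n p)) * (X (Fin.natAdd n q) - X (Fin.natAdd n p)) +
    (X (Fin.natAdd n z) - X (Fin.natAdd n p)) * (X (Fin.castAdd n p) - X (Fin.castAdd n q))

theorem pq_eval {n : ℕ} (a b : Fin n → ℝ) (p z q : Fin n) :
    eval (Fin.append a b) (pq p z q) = qf a b p z q := by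
  simp only [pq, qf, map_add, map_sub, map_mul, eval_X, Fin.append_left, Fin.append_right]

theorem lin_deg {N : ℕ} (i j : Fin N) :
    (X i - X j : MvPolynomial (Fin N) ℝ).totalDegree ≤ 1 := by
  refine (totalDegree_sub _ _).trans ?_
  simp [totalDegree_X]

theorem pq_deg {n : ℕ} (p z q : Fin n) : (pq p z q).totalDegree ≤ 2 := by
  unfold pq
  refine (totalDegree_add _ _).trans (max_le ?_ ?_)
  · refine (totalDegree_mul _ _).trans ?_
    exact Nat.add_le_add (lin_deg _ _) (lin_deg _ _)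
  · refine (totalDegree_mul _ _).trans ?_
    exact Nat.add_le_add (lin_deg _ _) (lin_deg _ _)

theorem final (hN : NOSH) (hS : SUPER) (hSel : SEL) (hD : DEL) : ¬ MainS := by
  classical
  intro hM
  obtain ⟨n, m, w, hn, hK, hA, hF⟩ := hS 38
  obtain ⟨E, hE, hgood, hpar⟩ := hSel m n w hK
  choose p q hpq using hgood
  refine hN (n + n) {e // e ∈ E} (fun e => pq (w (p e.1 e.2)) (w e.1) (w (q e.1 e.2))) (by omega)
    (by rw [Fintype.card_coe]; omega) (fun o => pq_deg _ _ _) ?_
  have hD' : ∀ D : Finset {e // e ∈ E}, ∃ a b : Fin n → ℝ, ∀ e ∈ E, ∀ p q, Good w p e q →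
      (e ∈ D.map (Function.Embedding.subtype _) → 0 ≤ qf a b (w p) (w e) (w q)) ∧
      (e ∉ D.map (Function.Embedding.subtype _) → qf a b (w p) (w e) (w q) < 0) := by
    intro D
    refine hD m n w hA hF hM E (fun e he => ⟨p e he, q e he, hpq e he⟩) hpar _ ?_
    intro e he
    rw [Finset.mem_map] at he
    obtain ⟨x, _, rfl⟩ := he
    exact x.2
  choose a b hab using hD'
  refine ⟨fun D => Fin.append (a D) (b D), fun D o => ?_⟩
  obtain ⟨h1, h2⟩ := hab D o.1 o.2 _ _ (hpq o.1 o.2)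
  simp only [pq_eval]
  have hmem : (o.1 ∈ D.map (Function.Embedding.subtype _)) ↔ o ∈ D := by
    rw [Finset.mem_map]
    constructor
    · rintro ⟨x, hx, hxo⟩
      have : x = o := Subtype.ext hxo
      rwa [← this]
    · intro h
      exact ⟨o, h, rfl⟩
  exact ⟨fun h => h1 (hmem.mpr h), fun h => h2 (fun h' => h (hmem.mp h'))⟩

end Pool.Agent.W599.DSN
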