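import Pool.Agent.W599.DSN.Stm

set_option autoImplicit false

/-! # First occurrences in the substitution -/

namespace Pool.Agent.W599.DSN.PSTF

open Pool.Agent.W599.DSN

/-- Every fan has no repeated letters and its letters are new, the letters in `P` being old. -/
def Fs {A : Type} : (A → Prop) → FW A → Prop
  | _, [] => True
  | P, Sum.inl a :: T => Fs (fun z => P z ∨ z = a) T
  | P, Sum.inr v :: T => v.Nodup ∧ (∀ a ∈ v, ¬ P a) ∧ Fs (fun z => P z ∨ z ∈ v) T

theorem fs_iff {A : Type} (T : FW A) : ∀ P : A → Prop, Fs P T ↔
    ∀ T₁ v T₂, T = T₁ ++ Sum.inr v :: T₂ → v.Nodup ∧ ∀ a ∈ v, ¬ P a ∧ a ∉ ex T₁ := by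
  induction T with
  | nil =>
    intro P
    simp only [Fs, true_iff]
    intro T₁ v T₂ h
    simp at h
  | cons c T ih =>
    intro P
    cases c with
    | inl a =>
      simp only [Fs]
      rw [ih]
      constructor
      · intro h T₁ v T₂ e
        cases T₁ with
        | nil => simp at e
        | cons c' T₁ =>
          simp only [List.cons_append, List.cons.injEq] at e
          obtain ⟨rfl, e⟩ := e
          obtain ⟨h1, h2⟩ := h T₁ v T₂ e
          refine ⟨h1, fun b hb => ?_⟩
          have h3 := h2 b hb
          simp only [ex, List.mem_cons]
          tauto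
      · intro h T₁ v T₂ e
        obtain ⟨h1, h2⟩ := h (Sum.inl a :: T₁) v T₂ (by rw [e]; rfl)
        refine ⟨h1, fun b hb => ?_⟩
        have h3 := h2 b hb
        simp only [ex, List.mem_cons] at h3
        tauto
    | inr w =>
      simp only [Fs]
      rw [ih]
      constructor
      · rintro ⟨g1, g2, h⟩ T₁ v T₂ e
        cases T₁ with
        | nil =>
          simp only [List.nil_append, List.cons.injEq, Sum.inr.injEq] at e
          obtain ⟨rfl, -⟩ := e
          exact ⟨g1, fun b hb => ⟨g2 b hb, by simp [ex]⟩⟩
        | cons c' T₁ =>
          simp only [List.cons_append, List.cons.injEq] at e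
          obtain ⟨rfl, e⟩ := e
          obtain ⟨h1, h2⟩ := h T₁ v T₂ e
          refine ⟨h1, fun b hb => ?_⟩
          have h3 := h2 b hb
          simp only [ex, List.mem_append]
          tauto
      · intro h
        obtain ⟨g1, g2⟩ := h [] w T rfl
        refine ⟨g1, fun b hb => (g2 b hb).1, ?_⟩
        intro T₁ v T₂ e
        obtain ⟨h1, h2⟩ := h (Sum.inr w :: T₁) v T₂ (by rw [e]; rfl)
        refine ⟨h1, fun b hb => ?_⟩
        have h3 := h2 b hb
        simp only [ex, List.mem_append] at h3
        tauto

theorem first_iff {A : Type} (T : FW A) : First T ↔ Fs (fun _ => False) T := by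
  rw [fs_iff]
  unfold First
  simp

theorem fs_append {A : Type} (T : FW A) : ∀ (P : A → Prop) (T' : FW A),
    Fs P T → Fs (fun z => P z ∨ z ∈ ex T) T' → Fs P (T ++ T') := by
  induction T with
  | nil =>
    intro P T' _ h
    simpa [ex] using h
  | cons c T ih =>
    intro P T' h h'
    cases c with
    | inl a =>
      simp only [List.cons_append, Fs] at h ⊢
      refine ih _ _ h ?_
      simpa only [ex, List.mem_cons, or_assoc] using h'
    | inr w =>
      simp only [List.cons_append, Fs] at h ⊢
      refine ⟨h.1, h.2.1, ih _ _ h.2.2 ?_⟩
      simpa only [ex, List.mem_append, or_assoc] using h'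

/-- the letters of a copy -/
theorem mem_sub1 {X Y A : Type} (g : Y → A) (h : X → A) (T : FW Y) : ∀ (xs : List X) (z : A),
    z ∈ ex (sub1 g h xs T) → (∃ y, z = g y) ∨ ∃ x ∈ xs, z = h x := by
  induction T with
  | nil =>
    intro xs z hz
    simp [sub1, ex] at hz
  | cons c T ih =>
    intro xs z hz
    cases c with
    | inl y =>
      simp only [sub1, ex, List.mem_cons] at hz
      rcases hz with rfl | hz
      · exact Or.inl ⟨y, rfl⟩
      · exact ih xs z hz
    | inr v =>
      cases xs with
      | nil =>
        simp only [sub1, ex, List.mem_append, List.mem_map] at hz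
        rcases hz with ⟨y, -, rfl⟩ | hz
        · exact Or.inl ⟨y, rfl⟩
        · exact ih [] z hz
      | cons x xs =>
        simp only [sub1, ex, List.mem_append, List.mem_map, List.mem_singleton] at hz
        rcases hz with (⟨y, -, rfl⟩ | rfl) | hz
        · exact Or.inl ⟨y, rfl⟩
        · exact Or.inr ⟨x, List.mem_cons_self, rfl⟩
        · cases hl : v.getLast? with
          | none =>
            rw [hl] at hz
            simp only [Option.toList_none, List.map_nil, List.nil_append] at hz
            rcases ih xs z hz with h1 | ⟨x', hx', rfl⟩
            · exact Or.inl h1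
            · exact Or.inr ⟨x', List.mem_cons_of_mem _ hx', rfl⟩
          | some y =>
            rw [hl] at hz
            simp only [Option.toList_some, List.map_cons, List.map_nil, List.cons_append,
              List.nil_append, ex, List.mem_cons] at hz
            rcases hz with rfl | hz
            · exact Or.inl ⟨y, rfl⟩
            rcases ih xs z hz with h1 | ⟨x', hx', rfl⟩
            · exact Or.inl h1
            · exact Or.inr ⟨x', List.mem_cons_of_mem _ hx', rfl⟩

/-- a copy -/
theorem fs_sub1 {X Y A : Type} (g : Y → A) (h : X → A) (hg : Function.Injective g)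
    (hh : Function.Injective h) (hgh : ∀ x y, h x ≠ g y) (T : FW Y) :
    ∀ (xs : List X) (P : A → Prop) (Q : Y → Prop), Fs Q T → xs.Nodup →
      (∀ y, P (g y) → Q y) → (∀ x ∈ xs, ¬ P (h x)) → Fs P (sub1 g h xs T) := by
  induction T with
  | nil =>
    intro xs P Q _ _ _ _
    simp [sub1, Fs]
  | cons c T ih =>
    intro xs P Q hQ hx hP hR
    cases c with
    | inl y =>
      simp only [sub1, Fs] at hQ ⊢
      refine ih xs _ _ hQ hx ?_ ?_
      · rintro y' (h1 | h1)
        · exact Or.inl (hP y' h1)
        · exact Or.inr (hg h1)
      · rintro x hx' (h1 | h1)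
        · exact hR x hx' h1
        · exact hgh x y h1
    | inr v =>
      simp only [Fs] at hQ
      obtain ⟨q1, q2, q3⟩ := hQ
      cases xs with
      | nil =>
        simp only [sub1, Fs]
        refine ⟨q1.map hg, ?_, ih [] _ _ q3 hx ?_ ?_⟩
        · intro a ha h1
          obtain ⟨y, hy, rfl⟩ := List.mem_map.mp ha
          exact q2 y hy (hP y h1)
        · rintro y (h1 | h1)
          · exact Or.inl (hP y h1)
          · obtain ⟨y', hy', e⟩ := List.mem_map.mp h1
            rw [← hg e]
            exact Or.inr hy'
        · intro x hx'
          simp at hx'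
      | cons x xs =>
        simp only [sub1, Fs]
        rw [List.nodup_cons] at hx
        refine ⟨?_, ?_, ?_⟩
        · rw [List.nodup_append]
          refine ⟨q1.map hg, List.nodup_singleton _, ?_⟩
          intro a ha b hb
          obtain ⟨y, hy, rfl⟩ := List.mem_map.mp ha
          rw [List.mem_singleton] at hb
          rw [hb]
          exact fun e => hgh x y e.symm
        · intro a ha h1
          rw [List.mem_append, List.mem_singleton] at ha
          rcases ha with ha | rfl
          · obtain ⟨y, hy, rfl⟩ := List.mem_map.mp ha
            exact q2 y hy (hP y h1)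
          · exact hR x List.mem_cons_self h1
        · have key : ∀ P' : A → Prop, (∀ z, P' z → P z ∨ z ∈ v.map g ++ [h x]) →
              Fs P' (sub1 g h xs T) := by
            intro P' hP'
            refine ih xs P' _ q3 hx.2 ?_ ?_
            · intro y h1
              rcases hP' _ h1 with h2 | h2
              · exact Or.inl (hP y h2)
              · rw [List.mem_append, List.mem_singleton] at h2
                rcases h2 with h2 | h2
                · obtain ⟨y', hy', e⟩ := List.mem_map.mp h2
                  rw [← hg e]
                  exact Or.inr hy'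
                · exact absurd h2.symm (hgh x y)
            · intro x' hx' h1
              rcases hP' _ h1 with h2 | h2
              · exact hR x' (List.mem_cons_of_mem _ hx') h2
              · rw [List.mem_append, List.mem_singleton] at h2
                rcases h2 with h2 | h2
                · obtain ⟨y', hy', e⟩ := List.mem_map.mp h2
                  exact hgh x' y' e.symm
                · have := hh h2
                  subst this
                  exact hx.1 hx'
          cases hl : v.getLast? with
          | none =>
            simp only [Option.toList_none, List.map_nil, List.nil_append]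
            exact key _ fun z hz => hz
          | some y =>
            simp only [Option.toList_some, List.map_cons, List.map_nil, List.cons_append,
              List.nil_append, Fs]
            refine key _ ?_
            rintro z (hz | rfl)
            · exact hz
            · refine Or.inr ?_
              rw [List.mem_append]
              refine Or.inl (List.mem_map_of_mem ?_)
              exact List.mem_of_getLast? hl

/-- the substitution -/
theorem fs_sub {X Y : Type} (T₂ : FW Y) (h2 : Fs (fun _ => False) T₂) (h0 : 0 < nf T₂)
    (T : FW X) : ∀ (P : X ⊕ (List X × Y) → Prop) (Q : X → Prop), Fs Q T →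
      FanLen (nf T₂) T → (∀ x, P (Sum.inl x) → Q x) →
      (∀ v y, P (Sum.inr (v, y)) → ∀ a ∈ v, Q a) → Fs P (sub T₂ T) := by
  induction T with
  | nil =>
    intro P Q _ _ _ _
    simp [sub, Fs]
  | cons c T ih =>
    intro P Q hQ hF h3 h4
    have hF' : FanLen (nf T₂) T := fun v hv => hF v (List.mem_cons_of_mem _ hv)
    cases c with
    | inl x =>
      simp only [sub, Fs] at hQ ⊢
      refine ih _ _ hQ hF' ?_ ?_
      · rintro x' (h1 | h1)
        · exact Or.inl (h3 x' h1)
        · exact Or.inr (Sum.inl_injective h1)
      · rintro v y (h1 | h1) a ha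
        · exact Or.inl (h4 v y h1 a ha)
        · exact absurd h1 (by simp)
    | inr v =>
      simp only [Fs] at hQ
      obtain ⟨q1, q2, q3⟩ := hQ
      have hv : v.length = nf T₂ := hF v List.mem_cons_self
      simp only [sub]
      refine fs_append _ _ _ ?_ ?_
      · refine fs_sub1 _ _ ?_ Sum.inl_injective ?_ T₂ v P _ h2 q1 ?_ ?_
        · intro y y' e
          simpa using e
        · intro x y e
          simp at e
        · intro y h1
          obtain ⟨a, ha⟩ : ∃ a, a ∈ v := by
            refine List.exists_mem_of_length_pos ?_
            omega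
          exact q2 a ha (h4 v y h1 a ha)
        · intro x hx h1
          exact q2 x hx (h3 x h1)
      · refine ih _ _ q3 hF' ?_ ?_
        · rintro x (h1 | h1)
          · exact Or.inl (h3 x h1)
          · rcases mem_sub1 _ _ _ _ _ h1 with ⟨y, e⟩ | ⟨x', hx', e⟩
            · exact absurd e (by simp)
            · rw [Sum.inl_injective e]
              exact Or.inr hx'
        · rintro w y (h1 | h1) a ha
          · exact Or.inl (h4 w y h1 a ha)
          · rcases mem_sub1 _ _ _ _ _ h1 with ⟨y', e⟩ | ⟨x', hx', e⟩
            · have e' := Sum.inr_injective e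
              rw [Prod.mk.injEq] at e'
              rw [← e'.1]
              exact Or.inr ha
            · exact absurd e (by simp)

end Pool.Agent.W599.DSN.PSTF

namespace Pool.Agent.W599.DSN

theorem stf : Pool.Agent.W599.DSN.STF := by
  intro X Y m T₁ T₂ _ h1 h2 h0
  rw [PSTF.first_iff]
  refine PSTF.fs_sub T₂ ((PSTF.first_iff T₂).mp h2.2.2.1) h0 T₁ _ (fun _ => False)
    ((PSTF.first_iff T₁).mp h1.2.2.1) h1.1 ?_ ?_
  · intro x h
    exact h
  · intro v y h
    exact h.elim

end Pool.Agent.W599.DSN
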