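import Pool.Agent.W599.DSN.Stm

set_option autoImplicit false

namespace Pool.Agent.W599.DSN

theorem ex_append {A : Type} (S T : FW A) : ex (S ++ T) = ex S ++ ex T := by
  induction S with
  | nil => rfl
  | cons c S ih =>
    cases c with
    | inl a => simp [ex, ih]
    | inr v => simp [ex, ih]

theorem sub_append {X Y : Type} (T₂ : FW Y) (S T : FW X) :
    sub T₂ (S ++ T) = sub T₂ S ++ sub T₂ T := by
  induction S with
  | nil => rfl
  | cons c S ih =>
    cases c with
    | inl a => simp [sub, ih]
    | inr v => simp [sub, ih]

theorem mem_ex_of_mem_fan {A : Type} {T : FW A} {v : List A} (h : Sum.inr v ∈ T) {a : A}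
    (ha : a ∈ v) : a ∈ ex T := by
  induction T with
  | nil => cases h
  | cons c T ih =>
    cases c with
    | inl b =>
      simp only [ex, List.mem_cons]
      right
      apply ih
      simpa using h
    | inr u =>
      simp only [ex, List.mem_append]
      rcases List.mem_cons.mp h with h | h
      · left
        cases h
        exact ha
      · exact Or.inr (ih h)

/-- projection to the X-letters -/
def pX {X B : Type} : X ⊕ B → Option X
  | Sum.inl x => some x
  | Sum.inr _ => none

/-- projection to the Y-letters -/
def pY {X Y : Type} : X ⊕ (List X × Y) → Option Y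
  | Sum.inl _ => none
  | Sum.inr p => some p.2

theorem fm_pX_map {X Y B : Type} (g : Y → B) (l : List Y) :
    (l.map (fun y => (Sum.inr (g y) : X ⊕ B))).filterMap pX = [] := by
  induction l with
  | nil => rfl
  | cons a l ih => simp [pX]

theorem ex_map_inl {A Y : Type} (g : Y → A) (l : List Y) :
    ex (l.map (fun y => (Sum.inl (g y) : A ⊕ List A))) = l.map g := by
  induction l with
  | nil => rfl
  | cons a l ih => simp [ex, ih]

theorem fmX_sub1 {X Y B : Type} (g : Y → B) (T : FW Y) :
    ∀ xs : List X, xs.length = nf T →
      (ex (sub1 (fun y => (Sum.inr (g y) : X ⊕ B)) Sum.inl xs T)).filterMap pX = xs := by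
  induction T with
  | nil =>
    intro xs h
    have : xs = [] := List.length_eq_zero_iff.mp (by simpa [nf] using h)
    subst this
    simp [sub1, ex]
  | cons c T ih =>
    intro xs h
    cases c with
    | inl y =>
      cases xs with
      | nil =>
        simp only [sub1, ex]
        rw [List.filterMap_cons_none (by rfl)]
        exact ih [] (by simpa [nf] using h)
      | cons x xs =>
        simp only [sub1, ex]
        rw [List.filterMap_cons_none (by rfl)]
        exact ih (x :: xs) (by simpa [nf] using h)
    | inr v =>
      cases xs with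
      | nil => simp [nf] at h
      | cons x xs =>
        have h' : xs.length = nf T := by simpa [nf] using h
        have := ih xs h'
        simp only [sub1, ex, ex_append, List.filterMap_append, ex_map_inl]
        rw [fm_pX_map, fm_pX_map, this]
        simp [pX]

theorem fmX_sub {X Y : Type} (T₂ : FW Y) (T₁ : FW X) (h : FanLen (nf T₂) T₁) :
    (ex (sub T₂ T₁)).filterMap pX = ex T₁ := by
  induction T₁ with
  | nil => rfl
  | cons c T ih =>
    have h' : FanLen (nf T₂) T := fun v hv => h v (List.mem_cons_of_mem _ hv)
    cases c with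
    | inl x =>
      simp only [sub, ex]
      rw [List.filterMap_cons_some (b := x) (by rfl), ih h']
    | inr v =>
      simp only [sub, ex, ex_append, List.filterMap_append]
      rw [ih h', fmX_sub1 _ _ _ (h v (by simp))]

/-- the word with repeated last letters of the fans -/
def dw {Y : Type} : FW Y → List Y
  | [] => []
  | Sum.inl y :: T => y :: dw T
  | Sum.inr v :: T => (v ++ v.getLast?.toList) ++ dw T

theorem fmY_map {X Y : Type} (v : List X) (l : List Y) :
    (l.map (fun y => (Sum.inr (v, y) : X ⊕ (List X × Y)))).filterMap pY = l := by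
  induction l with
  | nil => rfl
  | cons a l ih => simpa [pY] using ih

theorem fmY_sub1 {X Y : Type} (v : List X) (T : FW Y) :
    ∀ xs : List X, xs.length = nf T →
      (ex (sub1 (fun y => (Sum.inr (v, y) : X ⊕ (List X × Y))) Sum.inl xs T)).filterMap pY = dw T := by
  induction T with
  | nil =>
    intro xs h
    have : xs = [] := List.length_eq_zero_iff.mp (by simpa [nf] using h)
    subst this
    simp [sub1, ex, dw]
  | cons c T ih =>
    intro xs h
    cases c with
    | inl y =>
      cases xs with
      | nil => simpa [sub1, ex, pY, dw] using ih [] (by simpa [nf] using h)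
      | cons x xs => simpa [sub1, ex, pY, dw] using ih (x :: xs) (by simpa [nf] using h)
    | inr u =>
      cases xs with
      | nil => simp [nf] at h
      | cons x xs =>
        have h' : xs.length = nf T := by simpa [nf] using h
        have := ih xs h'
        simp only [sub1, ex, ex_append, List.filterMap_append, ex_map_inl]
        rw [fmY_map, fmY_map, this]
        simp [pY, dw]

theorem dl {Y : Type} (v s : List Y) (hs : s.IsChain (· ≠ ·))
    (h : s.Sublist (v ++ v.getLast?.toList)) : s.Sublist v := by
  rcases List.eq_nil_or_concat v with rfl | ⟨v', c, rfl⟩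
  · simpa using h
  · have e : (v' ++ [c]).getLast?.toList = [c] := by simp
    rw [List.concat_eq_append] at *
    rw [e] at h
    obtain ⟨s1, s2, rfl, h1, h2⟩ := List.sublist_append_iff.mp h
    rcases List.sublist_singleton.mp h2 with rfl | rfl
    · simpa using h1
    · obtain ⟨p, q, rfl, h3, h4⟩ := List.sublist_append_iff.mp h1
      rcases List.sublist_singleton.mp h4 with rfl | rfl
      · simpa using h3.append (List.Sublist.refl [c])
      · exfalso
        rw [List.append_assoc] at hs
        have := (List.isChain_append.mp hs).2.1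
        simp at this

theorem dw_free {Y : Type} (T : FW Y) : ∀ s : List Y, s.IsChain (· ≠ ·) →
    s.Sublist (dw T) → s.Sublist (ex T) := by
  induction T with
  | nil => intro s _ h; simpa [dw, ex] using h
  | cons c T ih =>
    intro s hs h
    cases c with
    | inl y =>
      simp only [dw] at h
      simp only [ex]
      cases h with
      | cons _ h => exact (ih s hs h).cons _
      | cons_cons _ h => exact (ih _ (List.IsChain.tail hs) h).cons_cons _
    | inr v =>
      simp only [dw] at h
      simp only [ex]
      obtain ⟨s1, s2, rfl, h1, h2⟩ := List.sublist_append_iff.mp h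
      have hc := List.isChain_append.mp hs
      exact (dl v s1 hc.1 h1).append (ih s2 hc.2.1 h2)

theorem drop_left {A : Type} (P Q : List A) (a : A) (s : List A) (ha : a ∉ P)
    (h : (a :: s).Sublist (P ++ Q)) : (a :: s).Sublist Q := by
  induction P with
  | nil => simpa using h
  | cons c P ih =>
    rw [List.cons_append] at h
    cases h with
    | cons _ h => exact ih (fun h' => ha (List.mem_cons_of_mem _ h')) h
    | cons_cons _ h => exact absurd (List.mem_cons_self) ha

theorem drop_right {A : Type} (P Q : List A) (a : A) (s : List A) (ha : a ∉ Q)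
    (h : (s ++ [a]).Sublist (P ++ Q)) : (s ++ [a]).Sublist P := by
  have h1 : (a :: s.reverse).Sublist (Q.reverse ++ P.reverse) := by
    have := h.reverse
    simpa using this
  have h2 := drop_left Q.reverse P.reverse a s.reverse (by simpa using ha) h1
  have := h2.reverse
  simpa using this

theorem tag_mem1 {X Y : Type} (v : List X) (T : FW Y) : ∀ (xs : List X) (u : List X) (y : Y),
    (Sum.inr (u, y) : X ⊕ (List X × Y)) ∈
      ex (sub1 (fun y => (Sum.inr (v, y) : X ⊕ (List X × Y))) Sum.inl xs T) → u = v := by
  induction T with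
  | nil => intro xs u y h; simp [sub1, ex] at h
  | cons c T ih =>
    intro xs u y h
    cases c with
    | inl z =>
      cases xs with
      | nil =>
        simp only [sub1, ex, List.mem_cons] at h
        rcases h with h | h
        · simp only [Sum.inr.injEq, Prod.mk.injEq] at h
          exact h.1
        · exact ih _ _ _ h
      | cons x xs =>
        simp only [sub1, ex, List.mem_cons] at h
        rcases h with h | h
        · simp only [Sum.inr.injEq, Prod.mk.injEq] at h
          exact h.1
        · exact ih _ _ _ h
    | inr w =>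
      cases xs with
      | nil =>
        simp only [sub1, ex, List.mem_append, List.mem_map] at h
        rcases h with ⟨z, _, h⟩ | h
        · simp only [Sum.inr.injEq, Prod.mk.injEq] at h
          exact h.1.symm
        · exact ih _ _ _ h
      | cons x xs =>
        simp only [sub1, ex, ex_append, ex_map_inl, List.mem_append, List.mem_map,
          List.mem_singleton] at h
        rcases h with (⟨z, _, h⟩ | h) | ⟨z, _, h⟩ | h
        · simp only [Sum.inr.injEq, Prod.mk.injEq] at h
          exact h.1.symm
        · simp at h
        · simp only [Sum.inr.injEq, Prod.mk.injEq] at h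
          exact h.1.symm
        · exact ih _ _ _ h

theorem tag_mem {X Y : Type} (T₂ : FW Y) (T : FW X) (u : List X) (y : Y)
    (h : (Sum.inr (u, y) : X ⊕ (List X × Y)) ∈ ex (sub T₂ T)) : Sum.inr u ∈ T := by
  induction T with
  | nil => simp [sub, ex] at h
  | cons c T ih =>
    cases c with
    | inl x =>
      simp only [sub, ex, List.mem_cons] at h
      rcases h with h | h
      · simp at h
      · exact List.mem_cons_of_mem _ (ih h)
    | inr v =>
      simp only [sub, ex_append, List.mem_append] at h
      rcases h with h | h
      · have := tag_mem1 v T₂ _ _ _ h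
        subst this
        exact List.mem_cons_self
      · exact List.mem_cons_of_mem _ (ih h)

/-- decomposition around the copy with tag `v` -/
theorem decomp {X Y : Type} (T₂ : FW Y) (T₁ : FW X) (h1 : FanLen (nf T₂) T₁) (hF : First T₁)
    (h0 : 0 < nf T₂) (v : List X) (hv : Sum.inr v ∈ T₁) :
    ∃ P Q : List (X ⊕ (List X × Y)), ex (sub T₂ T₁) =
      P ++ (ex (sub1 (fun y => (Sum.inr (v, y) : X ⊕ (List X × Y))) Sum.inl v T₂) ++ Q) ∧
      (∀ y, Sum.inr (v, y) ∉ P) ∧ (∀ y, Sum.inr (v, y) ∉ Q) ∧ (∀ x ∈ v, Sum.inl x ∉ P) := by
  obtain ⟨A, B, rfl⟩ := List.append_of_mem hv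
  have hlen : v.length = nf T₂ := h1 v (by simp)
  obtain ⟨x0, hx0⟩ : ∃ x, x ∈ v := by
    cases v with
    | nil => simp at hlen; omega
    | cons x v => exact ⟨x, by simp⟩
  have hFA := (hF A v B rfl).2
  refine ⟨ex (sub T₂ A), ex (sub T₂ B), ?_, ?_, ?_, ?_⟩
  · rw [sub_append, ex_append]
    simp only [sub, ex_append]
  · intro y hy
    have := tag_mem T₂ A v y hy
    exact hFA x0 hx0 (mem_ex_of_mem_fan this hx0)
  · intro y hy
    have := tag_mem T₂ B v y hy
    obtain ⟨B1, B2, rfl⟩ := List.append_of_mem this
    have := (hF (A ++ Sum.inr v :: B1) v B2 (by simp)).2 x0 hx0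
    apply this
    rw [ex_append]
    simp [ex, hx0]
  · intro x hx hP
    have hA : FanLen (nf T₂) A := fun u hu => h1 u (by simp [hu])
    have : x ∈ (ex (sub T₂ A)).filterMap pX := by
      rw [List.mem_filterMap]
      exact ⟨_, hP, rfl⟩
    rw [fmX_sub T₂ A hA] at this
    exact hFA x hx this

theorem str : STR := by
  intro X Y m T₁ T₂ hm h1 h2 h0 a b hab hsub
  obtain ⟨hL, -, hF, -, hR⟩ := h1
  obtain ⟨-, -, -, -, hR2⟩ := h2
  have hchain : ∀ (c d : Y), c ≠ d → [c, d, c, d, c].IsChain (· ≠ ·) := by
    intro c d hcd
    simp [hcd, hcd.symm]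
  -- the case of a Y-letter in the role of `a`
  have key : ∀ (v : List X) (y : Y), a = Sum.inr (v, y) → False := by
    intro v y ha
    have hmem : a ∈ ex (sub T₂ T₁) := hsub.subset (by simp)
    have hv : Sum.inr v ∈ T₁ := tag_mem T₂ T₁ v y (ha ▸ hmem)
    have hlen : v.length = nf T₂ := hL v hv
    obtain ⟨P, Q, he, hP, hQ, -⟩ := decomp T₂ T₁ hL hF h0 v hv
    rw [he] at hsub
    have s1 := drop_left P _ a [b, a, b, a] (ha ▸ hP y) hsub
    have s2 := drop_right _ Q a [a, b, a, b] (ha ▸ hQ y) s1
    cases hb : b with
    | inl x =>
      have s3 : [b, b].Sublist ([a, b, a, b] ++ [a]) := by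
        refine List.Sublist.cons _ (List.Sublist.cons_cons _ (List.Sublist.cons _
          (List.Sublist.cons_cons _ (List.nil_sublist _))))
      have s4 := (s3.trans s2).filterMap pX
      rw [fmX_sub1 _ _ _ hlen, hb] at s4
      obtain ⟨A, B, hAB⟩ := List.append_of_mem hv
      exact List.nodup_iff_sublist.mp (hF A v B hAB).1 x (by simpa [pX] using s4)
    | inr p =>
      obtain ⟨u, y'⟩ := p
      have hb' : b ∈ ex (sub1 (fun y => (Sum.inr (v, y) : X ⊕ (List X × Y))) Sum.inl v T₂) :=
        s2.subset (by simp)
      have hu := tag_mem1 v T₂ _ u y' (hb ▸ hb')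
      subst hu
      have s4 := s2.filterMap pY
      rw [fmY_sub1 _ _ _ hlen, ha, hb] at s4
      have hyy : y ≠ y' := by
        rintro rfl
        exact hab (ha.trans hb.symm)
      have s5 : [y, y', y, y', y].Sublist (dw T₂) := by simpa [pY] using s4
      exact hR2 y y' hyy (dw_free T₂ _ (hchain y y' hyy) s5)
  cases ha : a with
  | inr p => exact key p.1 p.2 ha
  | inl x =>
    cases hb : b with
    | inl x' =>
      have s := hsub.filterMap pX
      rw [fmX_sub T₂ T₁ hL, ha, hb] at s
      have hxx : x ≠ x' := by
        rintro rfl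
        exact hab (ha.trans hb.symm)
      exact hR x x' hxx (by simpa [pX] using s)
    | inr p =>
      obtain ⟨v, y⟩ := p
      have hmem : b ∈ ex (sub T₂ T₁) := hsub.subset (by simp)
      have hv : Sum.inr v ∈ T₁ := tag_mem T₂ T₁ v y (hb ▸ hmem)
      have hlen : v.length = nf T₂ := hL v hv
      obtain ⟨P, Q, he, hP, hQ, hX⟩ := decomp T₂ T₁ hL hF h0 v hv
      rw [he] at hsub
      -- `b a b` lies in the copy
      have t1 : [b, a, b].Sublist (P ++ (ex (sub1 (fun y =>
          (Sum.inr (v, y) : X ⊕ (List X × Y))) Sum.inl v T₂) ++ Q)) := by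
        refine List.Sublist.trans ?_ hsub
        exact List.Sublist.cons _ (List.Sublist.cons_cons _ (List.Sublist.cons_cons _
          (List.Sublist.cons_cons _ (List.nil_sublist _))))
      have t2 := drop_left P _ b [a, b] (hb ▸ hP y) t1
      have t3 := drop_right _ Q b [b, a] (hb ▸ hQ y) t2
      have haR : a ∈ ex (sub1 (fun y => (Sum.inr (v, y) : X ⊕ (List X × Y))) Sum.inl v T₂) :=
        t3.subset (by simp)
      have hxv : x ∈ v := by
        have : x ∈ (ex (sub1 (fun y => (Sum.inr (v, y) : X ⊕ (List X × Y))) Sum.inl v T₂)).filterMap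
            pX := by
          rw [List.mem_filterMap]
          exact ⟨a, haR, by rw [ha]; rfl⟩
        rwa [fmX_sub1 _ _ _ hlen] at this
      have haP : a ∉ P := ha ▸ hX x hxv
      have u1 := drop_left P _ a [b, a, b, a] haP hsub
      have u2 : ([a, b, a] ++ [b]).Sublist ((ex (sub1 (fun y =>
          (Sum.inr (v, y) : X ⊕ (List X × Y))) Sum.inl v T₂) ++ Q)) := by
        refine List.Sublist.trans ?_ u1
        exact List.Sublist.cons_cons _ (List.Sublist.cons_cons _ (List.Sublist.cons_cons _
          (List.Sublist.cons_cons _ (List.nil_sublist _))))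
      have u3 := drop_right _ Q b [a, b, a] (hb ▸ hQ y) u2
      have u4 : [a, a].Sublist ([a, b, a] ++ [b]) :=
        List.Sublist.cons_cons _ (List.Sublist.cons _ (List.Sublist.cons_cons _ (List.nil_sublist _)))
      have u5 := (u4.trans u3).filterMap pX
      rw [fmX_sub1 _ _ _ hlen, ha] at u5
      obtain ⟨A, B, hAB⟩ := List.append_of_mem hv
      exact List.nodup_iff_sublist.mp (hF A v B hAB).1 x (by simpa [pX] using u5)

end Pool.Agent.W599.DSN
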